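import Mathlib
import Pool.Agent.MP_d8c3a3_gt.Final

/-!
The curved chessboard conjecture is false: an explicit 8 by 8 grid of circular arcs, on eighteen
different circles, that no composition of inversions maps into a set of type (C), (D) or (E),
even after finitely many points are discarded.
-/

open Pool.Agent.MP_d8c3a3_gt

namespace Pool.Agent.Results.MP_d8c3a3_gt.Counterexample

theorem result :
    ∃ A B : Fin 9 → Set E3, IsGrid 8 A B ∧
      (∀ s t : Fin 9 ⊕ Fin 9, s ≠ t →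
        ¬ ∃ C : Set E3, IsCircle C ∧ Sum.elim A B s ⊆ C ∧ Sum.elim A B t ⊆ C) ∧
      ∀ L : List (E3 × ℝ), (∀ cr ∈ L, 0 < cr.2) →
        ∀ S : Set E3, IsTypeC S ∨ IsTypeD S ∨ IsTypeE S →
          ∀ Z : Set E3, Z.Finite →
            ¬ Set.MapsTo (inversions L) (((⋃ i, A i) ∪ ⋃ j, B j) \ Z) S := by
  refine ⟨fun i => arc (ctl (iA i)), fun j => arc (ctl (iB j)), isGrid, ?_, ?_⟩
  · have hinj : ∀ s t : Fin 9 ⊕ Fin 9, s ≠ t → Sum.elim iA iB s ≠ Sum.elim iA iB t := by decide
    intro s t hst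
    have := not_concyclic _ _ (hinj s t hst)
    rcases s with s | s <;> rcases t with t | t <;> exact this
  · intro L hL S hS Z hZ h
    refine not_mapsTo L hL S hS Z hZ fun i x hx hxZ => h ⟨?_, hxZ⟩
    rcases cover i with ⟨a, rfl⟩ | ⟨b, rfl⟩
    · exact Or.inl (Set.mem_iUnion.2 ⟨a, hx⟩)
    · exact Or.inr (Set.mem_iUnion.2 ⟨b, hx⟩)

end Pool.Agent.Results.MP_d8c3a3_gt.Counterexample
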